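import Pool.Agent.H38.RB.Targets

/-!
# Upper bound for sums of non-negative multiplicative functions (module HT)
-/

set_option autoImplicit false

namespace Pool.Agent.H38.RB

open Finset

theorem ht_sq_mem {X : ℝ} {t : ℕ} : t ∈ sq X ↔ (1 ≤ t ∧ t ≤ ⌊X⌋₊) ∧ Squarefree t := by
  rw [sq, mem_filter, mem_Icc]

theorem ht_split {s p : ℕ} (h : Squarefree (s * p)) (hp : p.Prime) (f : ℕ → ℝ) :
    ∏ q ∈ (s * p).primeFactors, f q = (∏ q ∈ s.primeFactors, f q) * f p := by
  have hs0 : s * p ≠ 0 := h.ne_zero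
  have hs : s ≠ 0 := fun h0 => hs0 (by rw [h0, zero_mul])
  have hps : p ∉ s.primeFactors := by
    intro hmem
    obtain ⟨k, hk⟩ := Nat.dvd_of_mem_primeFactors hmem
    have h1 : p * p ∣ s * p := ⟨k, by rw [hk]; ring⟩
    have := h p h1
    exact hp.one_lt.ne' (Nat.isUnit_iff.1 this)
  rw [Nat.primeFactors_mul hs hp.ne_zero, hp.primeFactors, union_comm, ← insert_eq,
    prod_insert hps, mul_comm]

theorem ht_sum (A : ℝ) (hA : 0 ≤ A) (f : ℕ → ℝ) (hf : ∀ p, 0 ≤ f p ∧ f p ≤ A) (X : ℝ)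
    (hX : 2 ≤ X) :
    ∑ t ∈ sq X, (∏ p ∈ t.primeFactors, f p) * Real.log t ≤
      A * Real.log 4 * X * ∑ s ∈ sq X, (∏ p ∈ s.primeFactors, f p) / s := by
  classical
  set F : ℕ → ℝ := fun t => ∏ p ∈ t.primeFactors, f p with hF
  have hF0 : ∀ t, 0 ≤ F t := fun t => prod_nonneg fun p _ => (hf p).1
  have h1 : ∑ t ∈ sq X, F t * Real.log t =
      ∑ x ∈ (sq X).sigma (fun t => t.primeFactors), F x.1 * Real.log x.2 := by
    rw [sum_sigma]
    refine sum_congr rfl fun t ht => ?_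
    change F t * Real.log t = ∑ p ∈ t.primeFactors, F t * Real.log p
    rw [← mul_sum]
    congr 1
    have h2 := Nat.prod_primeFactors_of_squarefree (ht_sq_mem.1 ht).2
    conv_lhs => rw [← h2]
    push_cast
    rw [Real.log_prod]
    intro p hp
    exact_mod_cast (Nat.prime_of_mem_primeFactors hp).ne_zero
  let B : Finset (Σ _ : ℕ, ℕ) :=
    (sq X).sigma (fun s => (Ioc 0 ⌊X / s⌋₊).filter Nat.Prime)
  have h2 : ∑ x ∈ (sq X).sigma (fun t => t.primeFactors), F x.1 * Real.log x.2 ≤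
      ∑ y ∈ B, F y.1 * f y.2 * Real.log y.2 := by
    let e : (Σ _ : ℕ, ℕ) → (Σ _ : ℕ, ℕ) := fun x => ⟨x.1 / x.2, x.2⟩
    have hinj : Set.InjOn e ((sq X).sigma (fun t => t.primeFactors) : Finset (Σ _ : ℕ, ℕ)) := by
      rintro ⟨t, p⟩ hx ⟨t', p'⟩ hx' he
      simp only [coe_sigma, Set.mem_sigma_iff, mem_coe] at hx hx'
      simp only [e, Sigma.mk.injEq, heq_eq_eq] at he
      obtain ⟨he1, rfl⟩ := he
      have h3 := Nat.div_mul_cancel (Nat.dvd_of_mem_primeFactors hx.2)
      have h4 := Nat.div_mul_cancel (Nat.dvd_of_mem_primeFactors hx'.2)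
      rw [he1, h4] at h3
      rw [h3]
    have hval : ∀ x ∈ (sq X).sigma (fun t => t.primeFactors),
        F x.1 * Real.log x.2 = F (e x).1 * f (e x).2 * Real.log (e x).2 := by
      rintro ⟨t, p⟩ hx
      simp only [mem_sigma] at hx
      have h3 := Nat.div_mul_cancel (Nat.dvd_of_mem_primeFactors hx.2)
      have hsf : Squarefree (t / p * p) := by rw [h3]; exact (ht_sq_mem.1 hx.1).2
      have h4 := ht_split hsf (Nat.prime_of_mem_primeFactors hx.2) f
      rw [h3] at h4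
      change F t * Real.log p = F (t / p) * f p * Real.log p
      rw [← h4]
    have himg := sum_image (f := fun y : (Σ _ : ℕ, ℕ) => F y.1 * f y.2 * Real.log y.2) hinj
    rw [sum_congr rfl hval]
    refine himg.symm.le.trans ?_
    refine sum_le_sum_of_subset_of_nonneg ?_ ?_
    · intro y hy
      obtain ⟨⟨t, p⟩, hx, rfl⟩ := mem_image.1 hy
      simp only [mem_sigma] at hx
      have hp := Nat.prime_of_mem_primeFactors hx.2
      have h3 := Nat.div_mul_cancel (Nat.dvd_of_mem_primeFactors hx.2)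
      obtain ⟨⟨h4, h5⟩, h6⟩ := ht_sq_mem.1 hx.1
      have h7 : 1 ≤ t / p := Nat.div_pos (Nat.le_of_dvd (by omega)
        (Nat.dvd_of_mem_primeFactors hx.2)) hp.pos
      have hXt : (t : ℝ) ≤ X := (Nat.le_floor_iff (by linarith)).1 h5
      simp only [B, e, mem_sigma, mem_filter, mem_Ioc]
      refine ⟨ht_sq_mem.2 ⟨⟨h7, (Nat.div_le_self t p).trans h5⟩, ?_⟩, ⟨hp.pos, ?_⟩, hp⟩
      · exact h6.squarefree_of_dvd (Nat.div_dvd_of_dvd (Nat.dvd_of_mem_primeFactors hx.2))
      · have h8 : (0 : ℝ) < ((t / p : ℕ) : ℝ) := by exact_mod_cast h7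
        rw [Nat.le_floor_iff (by positivity), le_div_iff₀ h8]
        have h9 : ((p * (t / p) : ℕ) : ℝ) = t := by rw [mul_comm, h3]
        push_cast at h9
        rw [h9]
        exact hXt
    · rintro ⟨s, p⟩ hy _
      simp only [B, mem_sigma, mem_filter, mem_Ioc] at hy
      have : (1 : ℝ) ≤ p := by exact_mod_cast hy.2.1.1
      exact mul_nonneg (mul_nonneg (hF0 s) (hf p).1) (Real.log_nonneg this)
  have h3 : ∑ y ∈ B, F y.1 * f y.2 * Real.log y.2 ≤
      ∑ s ∈ sq X, A * Real.log 4 * X * (F s / s) := by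
    rw [sum_sigma]
    refine sum_le_sum fun s hs => ?_
    have hs1 : (1 : ℝ) ≤ s := by exact_mod_cast (ht_sq_mem.1 hs).1.1
    have h4 : ∑ p ∈ (Ioc 0 ⌊X / s⌋₊).filter Nat.Prime, F s * f p * Real.log p ≤
        F s * (A * Chebyshev.theta (X / s)) := by
      rw [Chebyshev.theta, mul_sum, mul_sum]
      refine sum_le_sum fun p hp => ?_
      have hp1 : (1 : ℝ) ≤ p := by exact_mod_cast (mem_Ioc.1 (mem_filter.1 hp).1).1
      have h5 : f p * Real.log p ≤ A * Real.log p :=
        mul_le_mul_of_nonneg_right (hf p).2 (Real.log_nonneg hp1)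
      calc F s * f p * Real.log p = F s * (f p * Real.log p) := by ring
        _ ≤ _ := mul_le_mul_of_nonneg_left h5 (hF0 s)
    refine h4.trans ?_
    have h5 := Chebyshev.theta_le_log4_mul_x (x := X / s) (by positivity)
    calc F s * (A * Chebyshev.theta (X / s)) ≤ F s * (A * (Real.log 4 * (X / s))) :=
          mul_le_mul_of_nonneg_left (mul_le_mul_of_nonneg_left h5 hA) (hF0 s)
      _ = _ := by ring
  calc _ = _ := h1
    _ ≤ _ := h2
    _ ≤ _ := h3
    _ = _ := by rw [← mul_sum]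

theorem ht_prod (f : ℕ → ℝ) (hf : ∀ p, 0 ≤ f p) (X : ℝ) :
    ∑ s ∈ sq X, (∏ p ∈ s.primeFactors, f p) / s ≤
      Real.exp (∑ p ∈ (Icc 1 ⌊X⌋₊).filter Nat.Prime, f p / p) := by
  classical
  have h1 : ∑ s ∈ sq X, (∏ p ∈ s.primeFactors, f p) / s =
      ∑ s ∈ sq X, ∏ p ∈ s.primeFactors, f p / p := by
    refine sum_congr rfl fun s hs => ?_
    have h2 := Nat.prod_primeFactors_of_squarefree (ht_sq_mem.1 hs).2
    rw [prod_div_distrib]
    congr 1
    conv_lhs => rw [← h2]
    push_cast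
    rfl
  have hinj : Set.InjOn (fun s : ℕ => s.primeFactors) (sq X : Finset ℕ) := by
    intro s hs t ht h
    rw [← Nat.prod_primeFactors_of_squarefree (ht_sq_mem.1 hs).2,
      ← Nat.prod_primeFactors_of_squarefree (ht_sq_mem.1 ht).2]
    change ∏ p ∈ s.primeFactors, p = ∏ p ∈ t.primeFactors, p
    rw [show s.primeFactors = t.primeFactors from h]
  rw [h1]
  calc ∑ s ∈ sq X, ∏ p ∈ s.primeFactors, f p / p
      = ∑ T ∈ (sq X).image (fun s : ℕ => s.primeFactors), ∏ p ∈ T, f p / p :=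
        (sum_image (f := fun T : Finset ℕ => ∏ p ∈ T, f p / p) hinj).symm
    _ ≤ ∑ T ∈ ((Icc 1 ⌊X⌋₊).filter Nat.Prime).powerset, ∏ p ∈ T, f p / p := by
        refine sum_le_sum_of_subset_of_nonneg ?_ fun T _ _ =>
          prod_nonneg fun p _ => div_nonneg (hf p) (Nat.cast_nonneg _)
        intro T hT
        obtain ⟨s, hs, rfl⟩ := mem_image.1 hT
        rw [mem_powerset]
        intro p hp
        have hp' := Nat.prime_of_mem_primeFactors hp
        have h3 := Nat.le_of_dvd (by have := (ht_sq_mem.1 hs).1.1; omega)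
          (Nat.dvd_of_mem_primeFactors hp)
        rw [mem_filter, mem_Icc]
        exact ⟨⟨hp'.pos, h3.trans (ht_sq_mem.1 hs).1.2⟩, hp'⟩
    _ = ∏ p ∈ (Icc 1 ⌊X⌋₊).filter Nat.Prime, (1 + f p / p) := (prod_one_add _).symm
    _ ≤ ∏ p ∈ (Icc 1 ⌊X⌋₊).filter Nat.Prime, Real.exp (f p / p) := by
        refine prod_le_prod (fun p _ => ?_) fun p _ => ?_
        · have := div_nonneg (hf p) (Nat.cast_nonneg (α := ℝ) p)
          linarith
        · have := Real.add_one_le_exp (f p / p)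
          linarith
    _ = _ := (Real.exp_sum _ _).symm

theorem HT : T_HT := by
  intro A hA
  have h4 : 0 ≤ Real.log 4 := Real.log_nonneg (by norm_num)
  refine ⟨A * Real.log 4 + 1, by positivity, ?_⟩
  intro f hf X hX
  have hlog : 0 < Real.log X := Real.log_pos (by linarith)
  have hF0 : ∀ t : ℕ, 0 ≤ ∏ p ∈ t.primeFactors, f p := fun t => prod_nonneg fun p _ => (hf p).1
  have h1 := ht_sum A hA f hf X hX
  have h2 := ht_prod f (fun p => (hf p).1) X
  have h3 : (∑ t ∈ sq X, ∏ p ∈ t.primeFactors, f p) * Real.log X ≤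
      ∑ t ∈ sq X, (∏ p ∈ t.primeFactors, f p) * Real.log t +
        X * ∑ s ∈ sq X, (∏ p ∈ s.primeFactors, f p) / s := by
    rw [sum_mul, mul_sum, ← sum_add_distrib]
    refine sum_le_sum fun t ht => ?_
    have ht1 : (1 : ℝ) ≤ t := by exact_mod_cast (ht_sq_mem.1 ht).1.1
    have h5 : Real.log X = Real.log t + Real.log (X / t) := by
      rw [Real.log_div (by linarith) (by linarith)]
      ring
    have h6 : Real.log (X / t) ≤ X / t := by
      have h7 : 0 < X / t := div_pos (by linarith) (by linarith)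
      have := Real.log_le_sub_one_of_pos h7
      linarith
    rw [h5, mul_add]
    have h7 := mul_le_mul_of_nonneg_left h6 (hF0 t)
    have h8 : X * ((∏ p ∈ t.primeFactors, f p) / t) =
        (∏ p ∈ t.primeFactors, f p) * (X / t) := by ring
    rw [h8]
    linarith
  have h5 : (∑ t ∈ sq X, ∏ p ∈ t.primeFactors, f p) * Real.log X ≤
      (A * Real.log 4 + 1) * X * Real.exp (∑ p ∈ (Icc 1 ⌊X⌋₊).filter Nat.Prime, f p / p) := by
    calc _ ≤ _ := h3
      _ ≤ A * Real.log 4 * X * ∑ s ∈ sq X, (∏ p ∈ s.primeFactors, f p) / s +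
          X * ∑ s ∈ sq X, (∏ p ∈ s.primeFactors, f p) / s := by linarith
      _ = (A * Real.log 4 + 1) * X * ∑ s ∈ sq X, (∏ p ∈ s.primeFactors, f p) / s := by ring
      _ ≤ _ := mul_le_mul_of_nonneg_left h2 (by positivity)
  rw [div_mul_eq_mul_div, le_div_iff₀ hlog]
  exact h5

end Pool.Agent.H38.RB
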